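import Pool.Agent.Helper64.LN.GoalsB
import Pool.Agent.Helper59.PQ.C1

set_option autoImplicit false

/-! Project LN, packet CR1. -/

open Topology Filter Set Metric UpperHalfPlane
open scoped MatrixGroups

namespace Pool.Agent.Helper30.LN
open Pool.Agent.Helper64.LN

/-- A curve from `y < 0` to `x > 0` meets a curve from `0` to `i∞`. -/
lemma core (S E : ℝ → ℂ) (hS : Continuous S) (hSi : ∀ t, 0 < (S t).im) (x y : ℝ)
    (hx : Tendsto S atTop (𝓝 (x : ℂ))) (hy : Tendsto S atBot (𝓝 (y : ℂ))) (hy0 : y < 0)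
    (hx0 : 0 < x) (hE : Continuous E) (hEi : ∀ t, 0 < (E t).im)
    (hE0 : Tendsto E atBot (𝓝 0)) (hE1 : Tendsto (fun t => (E t).im) atTop atTop) :
    ∃ s t, S s = E t := by
  set φ : ℝ → ℝ := fun s => (1 - s)⁻¹ - s⁻¹ with hφ
  have h01 : (0 : ℝ) < 1 := one_pos
  have hφc : ContinuousOn φ (Ioo 0 1) := by
    apply ContinuousOn.sub
    · apply ContinuousOn.inv₀ (by fun_prop)
      intro s hs
      exact (sub_pos.2 hs.2).ne'
    · exact continuousOn_inv₀.mono fun s hs => hs.1.ne'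
  have hφ0 : Tendsto φ (𝓝[>] 0) atBot := by
    have h1 : Tendsto (fun s : ℝ => (1 - s)⁻¹) (𝓝[>] 0) (𝓝 (1 - 0)⁻¹) := by
      apply Tendsto.mono_left _ nhdsWithin_le_nhds
      apply Tendsto.inv₀ _ (by norm_num)
      exact (continuous_const.sub continuous_id).tendsto 0
    have h2 : Tendsto (fun s : ℝ => -s⁻¹) (𝓝[>] 0) atBot :=
      tendsto_neg_atTop_atBot.comp tendsto_inv_nhdsGT_zero
    exact h1.add_atBot h2
  have hφ1 : Tendsto φ (𝓝[<] 1) atTop := by
    have h1 : Tendsto (fun s : ℝ => -s⁻¹) (𝓝[<] 1) (𝓝 (-1⁻¹)) := by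
      apply Tendsto.mono_left _ nhdsWithin_le_nhds
      exact (continuousAt_inv₀ one_ne_zero).tendsto.neg
    have h2 : Tendsto (fun s : ℝ => (1 - s)⁻¹) (𝓝[<] 1) atTop := by
      apply tendsto_inv_nhdsGT_zero.comp
      apply tendsto_nhdsWithin_of_tendsto_nhds_of_eventually_within
      · have : Tendsto (fun s : ℝ => 1 - s) (𝓝 1) (𝓝 (1 - 1)) :=
          (continuous_const.sub continuous_id).tendsto 1
        rw [sub_self] at this
        exact this.mono_left nhdsWithin_le_nhds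
      · filter_upwards [self_mem_nhdsWithin] with s hs
        exact sub_pos.2 (mem_Iio.1 hs)
    exact h2.atTop_add h1
  have hGc : ContinuousOn (S ∘ φ) (Ioo 0 1) := hS.comp_continuousOn hφc
  set G : ℝ → ℂ := extendFrom (Ioo 0 1) (S ∘ φ) with hG
  have hG0 : G 0 = y := eq_lim_at_left_extendFrom_Ioo h01 (hy.comp hφ0)
  have hG1 : G 1 = x := eq_lim_at_right_extendFrom_Ioo h01 (hx.comp hφ1)
  have hGC : ContinuousOn G (Icc 0 1) :=
    continuousOn_Icc_extendFrom_Ioo hGc (hy.comp hφ0) (hx.comp hφ1)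
  have hGe : ∀ s ∈ Ioo (0 : ℝ) 1, G s = S (φ s) := fun s hs =>
    extendFrom_extends hGc s hs
  -- bound
  obtain ⟨R, hR⟩ : ∃ R, ∀ s ∈ Icc (0 : ℝ) 1, (G s).im < R := by
    obtain ⟨R, hR⟩ := (isCompact_Icc.image_of_continuousOn
      (Complex.continuous_im.comp_continuousOn hGC)).bddAbove
    exact ⟨R + 1, fun s hs => lt_of_le_of_lt (hR ⟨s, hs, rfl⟩) (lt_add_one R)⟩
  obtain ⟨s1, hs1⟩ := (hE1.eventually (eventually_ge_atTop R)).exists
  set ψ : ℝ → ℝ := fun s => s1 + 1 - (1 - s)⁻¹ with hψ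
  have hψc : ContinuousOn ψ (Ioo 0 1) := by
    apply ContinuousOn.sub continuousOn_const
    apply ContinuousOn.inv₀ (by fun_prop)
    intro s hs
    exact (sub_pos.2 hs.2).ne'
  have hψ0 : Tendsto ψ (𝓝[>] 0) (𝓝 s1) := by
    apply Tendsto.mono_left _ nhdsWithin_le_nhds
    have h1 : Tendsto (fun s : ℝ => (1 - s)⁻¹) (𝓝 0) (𝓝 (1 - 0)⁻¹) := by
      apply Tendsto.inv₀ _ (by norm_num)
      exact (continuous_const.sub continuous_id).tendsto 0
    have h2 := (tendsto_const_nhds (x := s1 + 1) (f := 𝓝 (0 : ℝ))).sub h1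
    convert h2 using 2
    norm_num
  have hψ1 : Tendsto ψ (𝓝[<] 1) atBot := by
    have h2 : Tendsto (fun s : ℝ => (1 - s)⁻¹) (𝓝[<] 1) atTop := by
      apply tendsto_inv_nhdsGT_zero.comp
      apply tendsto_nhdsWithin_of_tendsto_nhds_of_eventually_within
      · have : Tendsto (fun s : ℝ => 1 - s) (𝓝 1) (𝓝 (1 - 1)) :=
          (continuous_const.sub continuous_id).tendsto 1
        rw [sub_self] at this
        exact this.mono_left nhdsWithin_le_nhds
      · filter_upwards [self_mem_nhdsWithin] with s hs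
        exact sub_pos.2 (mem_Iio.1 hs)
    have h3 := (tendsto_const_nhds (x := s1 + 1) (f := 𝓝[<] (1 : ℝ))).add_atBot
      (tendsto_neg_atTop_atBot.comp h2)
    exact h3
  have hFc : ContinuousOn (E ∘ ψ) (Ioo 0 1) := hE.comp_continuousOn hψc
  set F : ℝ → ℂ := extendFrom (Ioo 0 1) (E ∘ ψ) with hF
  have hF0' : Tendsto (E ∘ ψ) (𝓝[>] 0) (𝓝 (E s1)) := (hE.tendsto s1).comp hψ0
  have hF1' : Tendsto (E ∘ ψ) (𝓝[<] 1) (𝓝 0) := hE0.comp hψ1
  have hF0 : F 0 = E s1 := eq_lim_at_left_extendFrom_Ioo h01 hF0'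
  have hF1 : F 1 = 0 := eq_lim_at_right_extendFrom_Ioo h01 hF1'
  have hFC : ContinuousOn F (Icc 0 1) := continuousOn_Icc_extendFrom_Ioo hFc hF0' hF1'
  have hFe : ∀ s ∈ Ioo (0 : ℝ) 1, F s = E (ψ s) := fun s hs => extendFrom_extends hFc s hs
  have cases01 : ∀ s ∈ Icc (0 : ℝ) 1, s = 0 ∨ s = 1 ∨ s ∈ Ioo (0 : ℝ) 1 := by
    intro s hs
    rcases eq_or_lt_of_le hs.1 with h | h
    · exact Or.inl h.symm
    rcases eq_or_lt_of_le hs.2 with h' | h'
    · exact Or.inr (Or.inl h')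
    exact Or.inr (Or.inr ⟨h, h'⟩)
  have hFi : ∀ s ∈ Icc (0 : ℝ) 1, 0 ≤ (F s).im := by
    intro s hs
    rcases cases01 s hs with rfl | rfl | h
    · rw [hF0]; exact (hEi _).le
    · rw [hF1]; simp
    · rw [hFe s h]; exact (hEi _).le
  have hGi : ∀ s ∈ Icc (0 : ℝ) 1, 0 ≤ (G s).im := by
    intro s hs
    rcases cases01 s hs with rfl | rfl | h
    · rw [hG0]; simp
    · rw [hG1]; simp
    · rw [hGe s h]; exact (hSi _).le
  obtain ⟨s, hs, s', hs', he⟩ := Pool.Agent.Helper59.PQ.goalC1 F G y 0 x hFC hGC hy0 hx0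
    (by rw [hF1]; simp) hFi hGi (fun s hs => by
      rw [hF0]
      exact lt_of_lt_of_le (hR s hs) hs1) hG0 hG1
  -- the common point
  have hFs : F s = 0 ∨ ∃ t, F s = E t := by
    rcases cases01 s hs with rfl | rfl | h
    · exact Or.inr ⟨s1, hF0⟩
    · exact Or.inl hF1
    · exact Or.inr ⟨_, hFe s h⟩
  have hGs : G s' = y ∨ G s' = x ∨ ∃ t, G s' = S t := by
    rcases cases01 s' hs' with rfl | rfl | h
    · exact Or.inl hG0
    · exact Or.inr (Or.inl hG1)
    · exact Or.inr (Or.inr ⟨_, hGe s' h⟩)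
  rcases hFs with h | ⟨t, h⟩
  · exfalso
    rw [he] at h
    rcases hGs with h' | h' | ⟨t, h'⟩
    · rw [h] at h'
      have := congrArg Complex.re h'
      simp at this
      exact hy0.ne this.symm
    · rw [h] at h'
      have := congrArg Complex.re h'
      simp at this
      exact hx0.ne this
    · rw [h] at h'
      have := congrArg Complex.im h'
      simp at this
      exact (hSi t).ne this
  · rw [he] at h
    rcases hGs with h' | h' | ⟨t', h'⟩
    · exfalso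
      rw [h] at h'
      have := congrArg Complex.im h'
      simp at this
      exact (hEi t).ne' this
    · exfalso
      rw [h] at h'
      have := congrArg Complex.im h'
      simp at this
      exact (hEi t).ne' this
    · exact ⟨t', t, by rw [← h', h]⟩

/-- Periodic functions on a half line. -/
lemma per_red (h : ℝ → ℝ) (T : ℝ) (hp : ∀ t, T ≤ t → h (t + 1) = h t) (t : ℝ) (ht : T ≤ t) :
    ∃ s ∈ Icc T (T + 1), h t = h s := by
  have key : ∀ n : ℕ, ∀ s, T ≤ s → h (s + n) = h s := by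
    intro n
    induction n with
    | zero => intro s _; simp
    | succ n ih =>
      intro s hs
      push_cast
      rw [← add_assoc, hp _ (by linarith [Nat.cast_nonneg (α := ℝ) n]), ih s hs]
  refine ⟨t - ⌊t - T⌋₊, ⟨?_, ?_⟩, ?_⟩
  · linarith [Nat.floor_le (sub_nonneg.2 ht)]
  · linarith [Nat.lt_floor_add_one (t - T)]
  · have := key ⌊t - T⌋₊ (t - ⌊t - T⌋₊) (by linarith [Nat.floor_le (sub_nonneg.2 ht)])
    rw [sub_add_cancel] at this
    exact this

lemma per_bdd (h : ℝ → ℝ) (hc : Continuous h) (T : ℝ) (hp : ∀ t, T ≤ t → h (t + 1) = h t) :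
    ∃ C, ∀ t, T ≤ t → |h t| ≤ C := by
  obtain ⟨C, hC⟩ := (isCompact_Icc (a := T) (b := T + 1)).exists_bound_of_continuousOn
    hc.continuousOn
  refine ⟨C, fun t ht => ?_⟩
  obtain ⟨s, hs, e⟩ := per_red h T hp t ht
  rw [e]
  exact hC s hs

lemma per_pos (h : ℝ → ℝ) (hc : Continuous h) (T : ℝ) (hp : ∀ t, T ≤ t → h (t + 1) = h t)
    (h0 : ∀ t, 0 < h t) : ∃ c, 0 < c ∧ ∀ t, T ≤ t → c ≤ h t := by
  obtain ⟨s, hs, hm⟩ := (isCompact_Icc (a := T) (b := T + 1)).exists_isMinOn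
    (nonempty_Icc.2 (by linarith)) hc.continuousOn
  refine ⟨h s, h0 s, fun t ht => ?_⟩
  obtain ⟨s', hs', e⟩ := per_red h T hp t ht
  rw [e]
  exact hm hs'

lemma grow (h : ℝ → ℝ) (hc : Continuous h) (h0 : ∀ t, 0 < h t) (κ : ℝ) (hκ : 1 < κ) (T : ℝ)
    (hp : ∀ t, T ≤ t → h (t + 1) = κ * h t) : Tendsto h atTop atTop := by
  have hκ0 : 0 < κ := by linarith
  have hl : 0 < Real.log κ := Real.log_pos hκ
  obtain ⟨c, hc0, hc1⟩ := per_pos (fun t => h t * Real.exp (-(t * Real.log κ)))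
    (by fun_prop) T (fun t ht => by
      rw [hp t ht, add_mul, one_mul, neg_add, Real.exp_add, Real.exp_neg (Real.log κ),
        Real.exp_log hκ0]
      field_simp) (fun t => mul_pos (h0 t) (Real.exp_pos _))
  have h1 : Tendsto (fun t : ℝ => c * Real.exp (t * Real.log κ)) atTop atTop :=
    (Real.tendsto_exp_atTop.comp (tendsto_id.atTop_mul_const hl)).const_mul_atTop hc0
  refine tendsto_atTop_mono' _ ?_ h1
  filter_upwards [eventually_ge_atTop T] with t ht
  have h2 := hc1 t ht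
  have h3 := mul_le_mul_of_nonneg_right h2 (Real.exp_pos (t * Real.log κ)).le
  rw [mul_assoc, ← Real.exp_add, neg_add_cancel, Real.exp_zero, mul_one] at h3
  exact h3

lemma lin (h : ℝ → ℝ) (hc : Continuous h) (δ : ℝ) (hδ : δ ≠ 0) (T : ℝ)
    (hp : ∀ t, T ≤ t → h (t + 1) = h t + δ) : Tendsto (fun t => |h t|) atTop atTop := by
  obtain ⟨C, hC⟩ := per_bdd (fun t => h t - δ * t) (by fun_prop) T (fun t ht => by
    rw [hp t ht]
    ring)
  have h1 : Tendsto (fun t : ℝ => |δ| * t - C) atTop atTop :=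
    tendsto_atTop_add_const_right _ _ (tendsto_id.const_mul_atTop (abs_pos.2 hδ))
  refine tendsto_atTop_mono' _ ?_ h1
  filter_upwards [eventually_ge_atTop T, eventually_ge_atTop 0] with t ht ht0
  have h2 := hC t ht
  have h3 : |δ * t| ≤ |h t| + |h t - δ * t| := by
    have : δ * t = h t - (h t - δ * t) := by ring
    calc |δ * t| = |h t - (h t - δ * t)| := by rw [← this]
      _ ≤ _ := abs_sub _ _
  rw [abs_mul, abs_of_nonneg ht0] at h3
  linarith

lemma decay (E : ℝ → ℂ) (hE : Continuous E) (κ : ℝ) (hκ : 1 < κ)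
    (hp : ∀ t, E (t + 1) = κ * E t) : Tendsto E atBot (𝓝 0) := by
  have hκ0 : 0 < κ := by linarith
  have hl : 0 < Real.log κ := Real.log_pos hκ
  obtain ⟨C, hC⟩ := per_bdd (fun t => ‖E (-t)‖ * Real.exp (t * Real.log κ))
    (by fun_prop) 0 (fun t _ => by
      have h1 := hp (-(t + 1))
      rw [show -(t + 1) + 1 = -t by ring] at h1
      rw [h1, norm_mul, Complex.norm_real, Real.norm_of_nonneg hκ0.le, add_mul, one_mul,
        Real.exp_add, Real.exp_log hκ0]
      ring)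
  rw [tendsto_zero_iff_norm_tendsto_zero]
  have h1 : Tendsto (fun t : ℝ => C * Real.exp (t * Real.log κ)) atBot (𝓝 (C * 0)) :=
    (Real.tendsto_exp_atBot.comp (tendsto_id.atBot_mul_const hl)).const_mul C
  rw [mul_zero] at h1
  refine tendsto_of_tendsto_of_tendsto_of_le_of_le' tendsto_const_nhds h1
    (Eventually.of_forall fun t => norm_nonneg _) ?_
  filter_upwards [eventually_le_atBot 0] with t ht
  have h2 := le_of_abs_le (hC (-t) (by linarith))
  rw [neg_neg] at h2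
  have h3 := mul_le_mul_of_nonneg_right h2 (Real.exp_pos (t * Real.log κ)).le
  rw [mul_assoc, ← Real.exp_add, neg_mul, neg_add_cancel, Real.exp_zero, mul_one] at h3
  exact h3

lemma att_lim (a : SL(2, ℝ)) (v : ℝ × ℝ) (ha : mh a ≠ 1) (hv : Att a v) (hv2 : v.2 ≠ 0)
    (σ : ℝ → ℍ) (hσ : Continuous σ) (T : ℝ) (hp : ∀ t, T ≤ t → σ (t + 1) = a • σ t) :
    Tendsto (fun t => (σ t : ℂ)) atTop (𝓝 ((v.1 / v.2 : ℝ) : ℂ)) := by
  obtain ⟨v1, v2⟩ := v
  dsimp only at hv2 ⊢
  obtain ⟨-, μ, hμ, e1, e2⟩ := hv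
  dsimp only at e1 e2
  have hμ0 : μ ≠ 0 := by
    intro h
    rw [h] at hμ
    norm_num at hμ
  set n : ℝ := v1 ^ 2 + v2 ^ 2 with hn
  have hn0 : 0 < n := by positivity
  let N : SL(2, ℝ) := ⟨!![v1, -v2 / n; v2, v1 / n], by
    rw [Matrix.det_fin_two_of]
    field_simp
    rw [hn]
    ring⟩
  have N00 : N 0 0 = v1 := rfl
  have N01 : N 0 1 = -v2 / n := rfl
  have N10 : N 1 0 = v2 := rfl
  have N11 : N 1 1 = v1 / n := rfl
  set U : SL(2, ℝ) := N⁻¹ * a * N with hU
  have U00 : U 0 0 = μ := by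
    rw [hU]
    simp only [Matrix.SpecialLinearGroup.coe_mul, Matrix.SpecialLinearGroup.coe_inv,
      Matrix.adjugate_fin_two, Matrix.mul_apply, Fin.sum_univ_two, Matrix.of_apply,
      Matrix.cons_val', Matrix.cons_val_zero, Matrix.cons_val_one, Matrix.cons_val_fin_one,
      N00, N01, N10, N11]
    have : v1 / n * (a 0 0 * v1 + a 0 1 * v2) + v2 / n * (a 1 0 * v1 + a 1 1 * v2) = μ := by
      rw [e1, e2]
      field_simp
      rw [hn]
    linear_combination this
  have U10 : U 1 0 = 0 := by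
    rw [hU]
    simp only [Matrix.SpecialLinearGroup.coe_mul, Matrix.SpecialLinearGroup.coe_inv,
      Matrix.adjugate_fin_two, Matrix.mul_apply, Fin.sum_univ_two, Matrix.of_apply,
      Matrix.cons_val', Matrix.cons_val_zero, Matrix.cons_val_one, Matrix.cons_val_fin_one,
      N00, N01, N10, N11]
    linear_combination -v2 * e1 + v1 * e2
  have U11 : U 1 1 = μ⁻¹ := by
    have hdet := U.det_coe
    rw [Matrix.det_fin_two, U00, U10, mul_zero, sub_zero] at hdet
    exact eq_inv_of_mul_eq_one_right hdet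
  set ρ : ℝ → ℍ := fun t => N⁻¹ • σ t with hρ
  have hρσ : ∀ t, σ t = N • ρ t := fun t => by
    rw [hρ]
    exact (smul_inv_smul N (σ t)).symm
  have hρc : Continuous ρ := hσ.const_smul N⁻¹
  have hρp : ∀ t, T ≤ t → ρ (t + 1) = U • ρ t := by
    intro t ht
    change N⁻¹ • σ (t + 1) = _
    rw [hp t ht, hρσ t, hU, mul_smul, mul_smul]
  have him : ∀ t, T ≤ t → (ρ (t + 1)).im = μ ^ 2 * (ρ t).im ∧
      (ρ (t + 1)).re = μ ^ 2 * (ρ t).re + μ * U 0 1 := by
    intro t ht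
    rw [hρp t ht]
    obtain ⟨h1, h2⟩ := smul_eqs U (ρ t)
    rw [U10, U11, U00] at h1 h2
    simp only [zero_mul, zero_add, mul_zero, sub_zero] at h1 h2
    constructor
    · field_simp at h2
      linear_combination h2
    · field_simp at h1
      linear_combination h1
  have hinf : Tendsto (fun t => ‖(ρ t : ℂ)‖) atTop atTop := by
    rcases eq_or_lt_of_le hμ with h | h
    · have hμ2 : μ ^ 2 = 1 := by
        rw [← sq_abs, ← h]
        norm_num
      have hU01 : U 0 1 ≠ 0 := by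
        intro h0
        apply ha
        have hcase : μ = 1 ∨ μ = -1 := by
          rcases mul_self_eq_one_iff.1 ((sq μ).symm.trans hμ2) with h | h
          · exact Or.inl h
          · exact Or.inr h
        have haU : a = N * U * N⁻¹ := by
          rw [hU]
          group
        rcases hcase with h1 | h1
        · have : U = 1 := by
            ext i j
            fin_cases i <;> fin_cases j <;> simp [U00, U10, U11, h0, h1]
          rw [haU, this, mul_one, mul_inv_cancel, map_one]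
        · have : U = -1 := by
            ext i j
            fin_cases i <;> fin_cases j <;> simp [U00, U10, U11, h0, h1]
          rw [haU, this, mul_neg, mul_one, neg_mul, mul_inv_cancel, mh_neg, map_one]
      have h1 := lin (fun t => (ρ t).re) (UpperHalfPlane.continuous_re.comp hρc) (μ * U 0 1)
        (mul_ne_zero hμ0 hU01) T (fun t ht => by
          rw [(him t ht).2, hμ2, one_mul])
      refine tendsto_atTop_mono (fun t => ?_) h1
      exact Complex.abs_re_le_norm _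
    · have hμ2 : 1 < μ ^ 2 := by
        rw [← sq_abs]
        nlinarith
      have h1 := grow (fun t => (ρ t).im) (UpperHalfPlane.continuous_im.comp hρc)
        (fun t => (ρ t).im_pos) (μ ^ 2) hμ2 T (fun t ht => (him t ht).1)
      refine tendsto_atTop_mono (fun t => ?_) h1
      exact (le_abs_self _).trans (Complex.abs_im_le_norm _)
  rw [tendsto_iff_norm_sub_tendsto_zero]
  have hd : ∀ t, ((v2 : ℂ) * ρ t + (v1 / n : ℝ)) ≠ 0 := by
    intro t h0
    have := congrArg Complex.im h0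
    simp at this
    rcases this with h | h
    · exact hv2 h
    · exact (ρ t).im_pos.ne' h
  have hfor : ∀ t, ‖(σ t : ℂ) - ((v1 / v2 : ℝ) : ℂ)‖ =
      (‖(v2 : ℂ) * ((v2 : ℂ) * ρ t + (v1 / n : ℝ))‖)⁻¹ := by
    intro t
    rw [← norm_inv, ← norm_neg]
    congr 1
    have hz : ((N • ρ t : ℍ) : ℂ) =
        ((v1 : ℂ) * ρ t + (-v2 / n : ℝ)) / ((v2 : ℂ) * ρ t + (v1 / n : ℝ)) := by
      rw [UpperHalfPlane.specialLinearGroup_apply]
      rfl
    rw [hρσ t, hz]
    have h1 := hd t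
    have h2 : (v2 : ℂ) ≠ 0 := by exact_mod_cast hv2
    have h3 : (n : ℂ) ≠ 0 := by exact_mod_cast hn0.ne'
    have h4 : (n : ℂ) = (v1 : ℂ) ^ 2 + (v2 : ℂ) ^ 2 := by rw [hn]; push_cast; ring
    apply eq_inv_of_mul_eq_one_left
    push_cast at h1 ⊢
    rw [neg_sub, sub_mul]
    have h5 : ((v1 : ℂ) * ρ t + -v2 / n) / ((v2 : ℂ) * ρ t + v1 / n) *
        ((v2 : ℂ) * (v2 * ρ t + v1 / n)) = v2 * ((v1 : ℂ) * ρ t + -v2 / n) := by
      rw [div_mul_eq_mul_div, div_eq_iff h1]
      ring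
    rw [h5]
    field_simp
    rw [h4]
    ring
  simp_rw [hfor]
  apply tendsto_inv_atTop_zero.comp
  simp_rw [norm_mul]
  apply Tendsto.const_mul_atTop (norm_pos_iff.2 (by exact_mod_cast hv2))
  have h1 : Tendsto (fun t => ‖(v2 : ℂ)‖ * ‖(ρ t : ℂ)‖ - ‖((v1 / n : ℝ) : ℂ)‖) atTop atTop :=
    tendsto_atTop_add_const_right _ _
      (hinf.const_mul_atTop (norm_pos_iff.2 (by exact_mod_cast hv2)))
  refine tendsto_atTop_mono (fun t => ?_) h1
  rw [← norm_mul]
  have := norm_sub_norm_le ((v2 : ℂ) * ρ t) (-((v1 / n : ℝ) : ℂ))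
  rw [norm_neg, sub_neg_eq_add] at this
  exact this

lemma diagCase (g a b : SL(2, ℝ)) (v w : ℝ × ℝ) (m : ℝ) (hm : 1 < |m|) (g00 : g 0 0 = m)
    (g01 : g 0 1 = 0) (g10 : g 1 0 = 0) (g11 : g 1 1 = m⁻¹) (ha : mh a ≠ 1) (hb : mh b ≠ 1)
    (hv : Att a v) (hw : Att b w) (hq : qf g v * qf g w < 0) : Sp (mh g) (mh a) (mh b) := by
  intro σ η T h1 h2 h3
  have hm0 : m ≠ 0 := by
    intro h
    rw [h] at hm
    norm_num at hm
  have hm2 : 1 < m ^ 2 := by
    rw [← sq_abs]
    nlinarith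
  have hq' : v.1 * v.2 * (w.1 * w.2) < 0 := by
    have e : qf g v * qf g w = (m⁻¹ - m) ^ 2 * (v.1 * v.2 * (w.1 * w.2)) := by
      simp only [qf, g00, g01, g10, g11]
      ring
    rw [e] at hq
    by_contra h
    exact absurd hq (not_lt.2 (mul_nonneg (sq_nonneg _) (not_lt.1 h)))
  have hv2 : v.2 ≠ 0 := by
    intro h
    rw [h] at hq'
    simp at hq'
  have hw2 : w.2 ≠ 0 := by
    intro h
    rw [h] at hq'
    simp at hq'
  have hxy : (v.1 / v.2) * (w.1 / w.2) < 0 := by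
    have e : (v.1 / v.2) * (w.1 / w.2) = (v.1 * v.2 * (w.1 * w.2)) / (v.2 ^ 2 * w.2 ^ 2) := by
      field_simp
    rw [e]
    exact div_neg_of_neg_of_pos hq' (by positivity)
  have hx := att_lim a v ha hv hv2 σ σ.continuous T h1
  have hy := att_lim b w hb hw hw2 (fun t => σ (-t)) (σ.continuous.comp continuous_neg) T
    (fun t ht => by
      have := h2 (-t) (by linarith)
      rw [show -(t + 1) = -t - 1 by ring, this]
      rfl)
  have hηe : ∀ t, (η (t + 1) : ℂ) = ((m ^ 2 : ℝ) : ℂ) * η t := by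
    intro t
    rw [h3 t]
    change ((g • η t : ℍ) : ℂ) = _
    rw [UpperHalfPlane.specialLinearGroup_apply]
    change (((g 0 0 : ℝ) : ℂ) * η t + ((g 0 1 : ℝ) : ℂ)) / (((g 1 0 : ℝ) : ℂ) * η t +
      ((g 1 1 : ℝ) : ℂ)) = _
    rw [g00, g01, g10, g11]
    have hm0' : (m : ℂ) ≠ 0 := by exact_mod_cast hm0
    push_cast
    field_simp
    ring
  have hηc : Continuous fun t => (η t : ℂ) := UpperHalfPlane.continuous_coe.comp η.continuous
  have hη0 := decay (fun t => (η t : ℂ)) hηc (m ^ 2) hm2 hηe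
  have hη1 := grow (fun t => (η t).im) (UpperHalfPlane.continuous_im.comp η.continuous)
    (fun t => (η t).im_pos) (m ^ 2) hm2 0 (fun t _ => by
      have := congrArg Complex.im (hηe t)
      rw [Complex.im_ofReal_mul] at this
      exact this)
  have hσc : Continuous fun t => (σ t : ℂ) := UpperHalfPlane.continuous_coe.comp σ.continuous
  rcases mul_neg_iff.1 hxy with ⟨hx0, hy0⟩ | ⟨hx0, hy0⟩
  · have hy' : Tendsto (fun t => (σ t : ℂ)) atBot (𝓝 ((w.1 / w.2 : ℝ) : ℂ)) := by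
      have := hy.comp tendsto_neg_atBot_atTop
      simpa [Function.comp_def] using this
    obtain ⟨s, t, e⟩ := core (fun t => (σ t : ℂ)) (fun t => (η t : ℂ)) hσc
      (fun t => (σ t).im_pos) _ _ hx hy' hy0 hx0 hηc (fun t => (η t).im_pos) hη0 hη1
    exact ⟨s, t, UpperHalfPlane.ext e⟩
  · have hx' : Tendsto (fun t => (σ (-t) : ℂ)) atBot (𝓝 ((v.1 / v.2 : ℝ) : ℂ)) :=
      hx.comp tendsto_neg_atBot_atTop
    obtain ⟨s, t, e⟩ := core (fun t => (σ (-t) : ℂ)) (fun t => (η t : ℂ))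
      (hσc.comp continuous_neg)
      (fun t => (σ (-t)).im_pos) _ _ hy hx' hx0 hy0 hηc (fun t => (η t).im_pos) hη0 hη1
    exact ⟨-s, t, UpperHalfPlane.ext e⟩

/-- Diagonalization. -/
lemma diagz (g : SL(2, ℝ)) (hg : 2 < |g 0 0 + g 1 1|) : ∃ (M : SL(2, ℝ)) (m : ℝ), 1 < |m| ∧
    (M⁻¹ * g * M) 0 0 = m ∧ (M⁻¹ * g * M) 0 1 = 0 ∧ (M⁻¹ * g * M) 1 0 = 0 ∧
    (M⁻¹ * g * M) 1 1 = m⁻¹ := by
  have hdet := g.det_coe
  rw [Matrix.det_fin_two] at hdet
  obtain ⟨m, hm, hme⟩ : ∃ m : ℝ, 1 < |m| ∧ m ^ 2 - (g 0 0 + g 1 1) * m + 1 = 0 := by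
    set t := g 0 0 + g 1 1 with ht
    have h4 : 0 < t ^ 2 - 4 := by
      have : |t| ^ 2 = t ^ 2 := sq_abs t
      nlinarith
    have hs := Real.sq_sqrt h4.le
    have hs0 := Real.sqrt_pos.2 h4
    rcases lt_abs.1 hg with h | h
    · refine ⟨(t + Real.sqrt (t ^ 2 - 4)) / 2, ?_, ?_⟩
      · rw [abs_of_pos (by linarith)]
        linarith
      · linear_combination (1 / 4 : ℝ) * hs
    · refine ⟨(t - Real.sqrt (t ^ 2 - 4)) / 2, ?_, ?_⟩
      · rw [abs_of_neg (by linarith)]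
        linarith
      · linear_combination (1 / 4 : ℝ) * hs
  have hm0 : m ≠ 0 := by
    intro h
    rw [h] at hm
    norm_num at hm
  have hmm : m * m⁻¹ = 1 := mul_inv_cancel₀ hm0
  have hmi : m⁻¹ ^ 2 - (g 0 0 + g 1 1) * m⁻¹ + 1 = 0 := by
    field_simp
    linear_combination hme
  have hne : m - m⁻¹ ≠ 0 := by
    intro h
    have h1 : m ^ 2 = 1 := by
      field_simp at h
      linarith
    rw [← sq_abs] at h1
    nlinarith
  -- eigenvectors
  obtain ⟨p, hp0, hp⟩ : ∃ p : Fin 2 → ℝ, p ≠ 0 ∧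
      ((g : Matrix (Fin 2) (Fin 2) ℝ) - Matrix.scalar (Fin 2) m).mulVec p = 0 := by
    apply Matrix.exists_mulVec_eq_zero_iff.2
    rw [Matrix.det_fin_two]
    simp
    linear_combination hme + hdet
  obtain ⟨q, hq0, hq⟩ : ∃ q : Fin 2 → ℝ, q ≠ 0 ∧
      ((g : Matrix (Fin 2) (Fin 2) ℝ) - Matrix.scalar (Fin 2) m⁻¹).mulVec q = 0 := by
    apply Matrix.exists_mulVec_eq_zero_iff.2
    rw [Matrix.det_fin_two]
    simp
    linear_combination hmi + hdet
  have p1 := congrFun hp 0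
  have p2 := congrFun hp 1
  have q1 := congrFun hq 0
  have q2 := congrFun hq 1
  simp [Matrix.mulVec, dotProduct, Fin.sum_univ_two] at p1 p2 q1 q2
  have p00 : p 0 ≠ 0 ∨ p 1 ≠ 0 := by
    by_contra h
    push Not at h
    apply hp0
    ext i
    fin_cases i
    · exact h.1
    · exact h.2
  have q00 : q 0 ≠ 0 ∨ q 1 ≠ 0 := by
    by_contra h
    push Not at h
    apply hq0
    ext i
    fin_cases i
    · exact h.1
    · exact h.2
  generalize p 0 = a at *
  generalize p 1 = b at *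
  generalize q 0 = c at *
  generalize q 1 = d at *
  have hΔ : a * d - b * c ≠ 0 := by
    intro h
    have k1 : (m - m⁻¹) * (a * c) = 0 := by
      linear_combination -c * p1 + a * q1 - g 0 1 * h
    have k2 : (m - m⁻¹) * (b * d) = 0 := by
      linear_combination -d * p2 + b * q2 + g 1 0 * h
    have l1 := (mul_eq_zero.1 k1).resolve_left hne
    have l2 := (mul_eq_zero.1 k2).resolve_left hne
    have l3 : a * d = 0 := by
      apply mul_self_eq_zero.1
      linear_combination a * d * h + b * d * l1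
    have l4 : b * c = 0 := by linear_combination l3 - h
    rcases p00 with h1 | h1
    · rcases q00 with h2 | h2
      · exact mul_ne_zero h1 h2 l1
      · exact mul_ne_zero h1 h2 l3
    · rcases q00 with h2 | h2
      · exact mul_ne_zero h1 h2 l4
      · exact mul_ne_zero h1 h2 l2
  obtain ⟨r, hr⟩ : ∃ r, r * (a * d - b * c) = 1 := ⟨_, inv_mul_cancel₀ hΔ⟩
  let M : SL(2, ℝ) := ⟨!![a, c * r; b, d * r], by
    rw [Matrix.det_fin_two_of]
    linear_combination hr⟩
  have M00 : M 0 0 = a := rfl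
  have M01 : M 0 1 = c * r := rfl
  have M10 : M 1 0 = b := rfl
  have M11 : M 1 1 = d * r := rfl
  refine ⟨M, m, hm, ?_, ?_, ?_, ?_⟩
  all_goals
    simp only [Matrix.SpecialLinearGroup.coe_mul, Matrix.SpecialLinearGroup.coe_inv,
      Matrix.adjugate_fin_two, Matrix.mul_apply, Fin.sum_univ_two, Matrix.of_apply,
      Matrix.cons_val', Matrix.cons_val_zero, Matrix.cons_val_one, Matrix.cons_val_fin_one,
      M00, M01, M10, M11]
  · linear_combination r * (d * p1 - c * p2) + m * hr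
  · linear_combination r ^ 2 * (d * q1 - c * q2)
  · linear_combination -b * p1 + a * p2
  · linear_combination r * (-b * q1 + a * q2) + m⁻¹ * hr

theorem goalCR1 : GoalCR1 := by
  intro g a b v w hg ha hb hv hw hq
  obtain ⟨M, m, hm, h00, h01, h10, h11⟩ := diagz g hg
  rw [← Sp_conj_iff (mh M⁻¹)]
  rw [← map_inv, ← map_mul, ← map_mul, ← map_mul, ← map_mul, ← map_mul, ← map_mul, inv_inv]
  have att : ∀ (a : SL(2, ℝ)) (v : ℝ × ℝ), Att a v → Att (M⁻¹ * a * M)
      (M⁻¹ 0 0 * v.1 + M⁻¹ 0 1 * v.2, M⁻¹ 1 0 * v.1 + M⁻¹ 1 1 * v.2) := by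
    rintro a ⟨v1, v2⟩ ⟨h0, μ, hμ, e1, e2⟩
    dsimp only at e1 e2 ⊢
    have hdet := M.det_coe
    rw [Matrix.det_fin_two] at hdet
    have hI : ∀ x y : ℝ, M 0 0 * (M⁻¹ 0 0 * x + M⁻¹ 0 1 * y) + M 0 1 * (M⁻¹ 1 0 * x +
        M⁻¹ 1 1 * y) = x ∧ M 1 0 * (M⁻¹ 0 0 * x + M⁻¹ 0 1 * y) + M 1 1 * (M⁻¹ 1 0 * x +
        M⁻¹ 1 1 * y) = y := by
      intro x y
      simp only [Matrix.SpecialLinearGroup.coe_inv,
        Matrix.adjugate_fin_two, Matrix.of_apply,
        Matrix.cons_val', Matrix.cons_val_zero, Matrix.cons_val_one, Matrix.cons_val_fin_one]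
      constructor
      · linear_combination x * hdet
      · linear_combination y * hdet
    refine ⟨?_, μ, hμ, ?_, ?_⟩
    · intro h
      apply h0
      have h1 := congrArg Prod.fst h
      have h2 := congrArg Prod.snd h
      dsimp only at h1 h2
      obtain ⟨k1, k2⟩ := hI v1 v2
      rw [h1, h2] at k1 k2
      ext
      · simpa using k1.symm
      · simpa using k2.symm
    · dsimp only
      simp only [Matrix.SpecialLinearGroup.coe_mul, Matrix.SpecialLinearGroup.coe_inv,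
        Matrix.adjugate_fin_two, Matrix.mul_apply, Fin.sum_univ_two, Matrix.of_apply,
        Matrix.cons_val', Matrix.cons_val_zero, Matrix.cons_val_one, Matrix.cons_val_fin_one]
      linear_combination M 1 1 * e1 - M 0 1 * e2 + (M 1 1 * (a 0 0 * v1 + a 0 1 * v2) - M 0 1 * (a 1 0 * v1 + a 1 1 * v2)) * hdet
    · dsimp only
      simp only [Matrix.SpecialLinearGroup.coe_mul, Matrix.SpecialLinearGroup.coe_inv,
        Matrix.adjugate_fin_two, Matrix.mul_apply, Fin.sum_univ_two, Matrix.of_apply,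
        Matrix.cons_val', Matrix.cons_val_zero, Matrix.cons_val_one, Matrix.cons_val_fin_one]
      linear_combination -M 1 0 * e1 + M 0 0 * e2 + (-M 1 0 * (a 0 0 * v1 + a 0 1 * v2) + M 0 0 * (a 1 0 * v1 + a 1 1 * v2)) * hdet
  have ne1 : ∀ a : SL(2, ℝ), mh a ≠ 1 → mh (M⁻¹ * a * M) ≠ 1 := by
    intro a h h1
    apply h
    rw [map_mul, map_mul, map_inv] at h1
    have h2 : mh a = mh M * ((mh M)⁻¹ * mh a * mh M) * (mh M)⁻¹ := by group
    rw [h2, h1, mul_one, mul_inv_cancel]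
  have hqq : ∀ v : ℝ × ℝ, qf (M⁻¹ * g * M)
      (M⁻¹ 0 0 * v.1 + M⁻¹ 0 1 * v.2, M⁻¹ 1 0 * v.1 + M⁻¹ 1 1 * v.2) = qf g v := by
    intro v
    have := qf_smul M⁻¹ g v
    rwa [inv_inv] at this
  exact diagCase _ _ _ _ _ m hm h00 h01 h10 h11 (ne1 a ha) (ne1 b hb) (att a v hv) (att b w hw)
    (by rw [hqq, hqq]; exact hq)

end Pool.Agent.Helper30.LN
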